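import Pool.Agent.Helper55_BED.GC

/-!
GC: Gaussian concentration for Lipschitz functions, general case.
-/

set_option autoImplicit false

open MeasureTheory ProbabilityTheory Filter Topology

open scoped ENNReal NNReal BigOperators Convolution

noncomputable section

namespace Pool.Agent.BED.H55

variable {ι : Type} [Fintype ι]

theorem N_le (x : ι → ℝ) {δ : ℝ} (hδ : 0 ≤ δ) (h : ‖x‖ ≤ δ) :
    N x ≤ Real.sqrt (Fintype.card ι) * δ := by
  rw [N]
  apply Real.sqrt_le_iff.2
  refine ⟨by positivity, ?_⟩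
  rw [mul_pow, Real.sq_sqrt (Nat.cast_nonneg _)]
  calc ∑ i, x i ^ 2 ≤ ∑ _i : ι, δ ^ 2 := by
        refine Finset.sum_le_sum fun i _ => ?_
        rw [← sq_abs]
        exact pow_le_pow_left₀ (abs_nonneg _) ((norm_le_pi_norm x i).trans h) 2
    _ = (Fintype.card ι : ℝ) * δ ^ 2 := by
        rw [Finset.sum_const, Finset.card_univ, nsmul_eq_mul]

theorem continuous_N : Continuous (N : (ι → ℝ) → ℝ) := by
  unfold N
  fun_prop

theorem continuous_of_lip {F : (ι → ℝ) → ℝ} {K : ℝ} (hK : ∀ x y, |F x - F y| ≤ K * N (x - y)) :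
    Continuous F := by
  rw [continuous_iff_continuousAt]
  intro x
  rw [ContinuousAt, tendsto_iff_dist_tendsto_zero]
  have h1 : Tendsto (fun y => K * N (y - x)) (𝓝 x) (𝓝 (K * N (x - x))) := by
    apply Continuous.tendsto
    exact continuous_const.mul (continuous_N.comp (continuous_id.sub continuous_const))
  have h0 : N (x - x) = 0 := by simp [N]
  rw [h0, mul_zero] at h1
  refine squeeze_zero (fun _ => dist_nonneg) (fun y => ?_) h1
  rw [Real.dist_eq]
  exact hK y x

/-- smooth approximation with the same Lipschitz constant -/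
theorem exists_smooth {F : (ι → ℝ) → ℝ} {K : ℝ} (hK0 : 0 ≤ K)
    (hK : ∀ x y, |F x - F y| ≤ K * N (x - y)) {ε : ℝ} (hε : 0 < ε) :
    ∃ F' : (ι → ℝ) → ℝ, ContDiff ℝ 1 F' ∧ (∀ x y, |F' x - F' y| ≤ K * N (x - y)) ∧
      ∀ x, |F' x - F x| ≤ ε := by
  have hFc := continuous_of_lip hK
  set δ : ℝ := ε / (K * Real.sqrt (Fintype.card ι) + 1) with hδ
  have hden : 0 < K * Real.sqrt (Fintype.card ι) + 1 := by positivity
  have hδ0 : 0 < δ := by positivity
  set φ : ContDiffBump (0 : ι → ℝ) := ⟨δ / 2, δ, by positivity, by linarith⟩ with hφ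
  have hi : ∀ x, Integrable (fun t => φ.normed volume t * F (x - t)) := by
    intro x
    apply Continuous.integrable_of_hasCompactSupport
    · exact φ.continuous_normed.mul (hFc.comp (continuous_const.sub continuous_id))
    · exact φ.hasCompactSupport_normed.mul_right
  set F' : (ι → ℝ) → ℝ := φ.normed volume ⋆[ContinuousLinearMap.lsmul ℝ ℝ, volume] F with hF'
  have hap : ∀ x, F' x = ∫ t, φ.normed volume t * F (x - t) := by
    intro x
    simp only [hF', convolution_def, ContinuousLinearMap.lsmul_apply, smul_eq_mul]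
  have hint1 : ∀ c : ℝ, ∫ t, c * φ.normed volume t = c := by
    intro c
    rw [integral_const_mul, φ.integral_normed, mul_one]
  refine ⟨F', ?_, ?_, ?_⟩
  · exact φ.hasCompactSupport_normed.contDiff_convolution_left _ (φ.contDiff_normed (n := 1))
      hFc.locallyIntegrable
  · intro x y
    rw [hap, hap, ← integral_sub (hi x) (hi y), ← Real.norm_eq_abs, ← hint1 (K * N (x - y))]
    refine norm_integral_le_of_norm_le (φ.integrable_normed.const_mul _)
      (Eventually.of_forall fun t => ?_)
    rw [← mul_sub, norm_mul, Real.norm_of_nonneg (φ.nonneg_normed t), Real.norm_eq_abs, mul_comm]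
    refine mul_le_mul_of_nonneg_right ?_ (φ.nonneg_normed t)
    have := hK (x - t) (y - t)
    rwa [show x - t - (y - t) = x - y by abel] at this
  · intro x
    have e : F x = ∫ t, φ.normed volume t * F x := by
      rw [integral_mul_const, φ.integral_normed, one_mul]
    rw [hap]
    conv_lhs => rw [e]
    rw [← integral_sub (hi x) (φ.integrable_normed.mul_const _), ← Real.norm_eq_abs,
      ← hint1 ε]
    refine norm_integral_le_of_norm_le (φ.integrable_normed.const_mul _)
      (Eventually.of_forall fun t => ?_)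
    rw [← mul_sub, norm_mul, Real.norm_of_nonneg (φ.nonneg_normed t), Real.norm_eq_abs]
    by_cases ht : t ∈ Metric.ball (0 : ι → ℝ) δ
    · rw [mul_comm]
      refine mul_le_mul_of_nonneg_right ?_ (φ.nonneg_normed t)
      refine (hK (x - t) x).trans ?_
      rw [mem_ball_zero_iff] at ht
      have h1 := N_le (x - t - x) hδ0.le (by
        rw [show x - t - x = -t by abel, norm_neg]
        exact ht.le)
      calc K * N (x - t - x) ≤ K * (Real.sqrt (Fintype.card ι) * δ) :=
            mul_le_mul_of_nonneg_left h1 hK0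
        _ = K * Real.sqrt (Fintype.card ι) * δ := by ring
        _ ≤ (K * Real.sqrt (Fintype.card ι) + 1) * δ := by
            apply mul_le_mul_of_nonneg_right _ hδ0.le
            linarith
        _ = ε := by rw [hδ]; field_simp
    · have h0 : φ.normed volume t = 0 := by
        have : t ∉ Function.support (φ.normed volume) := by
          rw [ContDiffBump.support_normed_eq]
          exact ht
        simpa using this
      rw [h0]
      simp

/-- the Maurey-Pisier inequality -/
theorem mp (v : ℝ≥0) {F : (ι → ℝ) → ℝ} {K : ℝ} (hK0 : 0 ≤ K)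
    (hK : ∀ x y, |F x - F y| ≤ K * N (x - y)) (l : ℝ) :
    ∫⁻ p : (ι → ℝ) × (ι → ℝ), ENNReal.ofReal (Real.exp (l * (F p.2 - F p.1)))
      ∂((gm ι v).prod (gm ι v))
      ≤ ENNReal.ofReal (Real.exp ((Real.pi / 2 * l) ^ 2 * v * K ^ 2 / 2)) := by
  set B : ℝ := (Real.pi / 2 * l) ^ 2 * v * K ^ 2 / 2 with hB
  have key : ∀ ε : ℝ, 0 < ε →
      ∫⁻ p : (ι → ℝ) × (ι → ℝ), ENNReal.ofReal (Real.exp (l * (F p.2 - F p.1)))
        ∂((gm ι v).prod (gm ι v)) ≤ ENNReal.ofReal (Real.exp (2 * |l| * ε + B)) := by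
    intro ε hε
    obtain ⟨F', h1, h2, h3⟩ := exists_smooth hK0 hK hε
    have h4 := mp_smooth v h1 h2 l
    calc ∫⁻ p : (ι → ℝ) × (ι → ℝ), ENNReal.ofReal (Real.exp (l * (F p.2 - F p.1)))
          ∂((gm ι v).prod (gm ι v))
        ≤ ∫⁻ p : (ι → ℝ) × (ι → ℝ), ENNReal.ofReal (Real.exp (2 * |l| * ε)) *
          ENNReal.ofReal (Real.exp (l * (F' p.2 - F' p.1))) ∂((gm ι v).prod (gm ι v)) := by
          refine lintegral_mono fun p => ?_
          rw [← ENNReal.ofReal_mul (Real.exp_pos _).le, ← Real.exp_add]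
          apply ENNReal.ofReal_le_ofReal
          rw [Real.exp_le_exp]
          have e1 : l * (F p.2 - F p.1) - l * (F' p.2 - F' p.1)
              = l * ((F' p.1 - F p.1) - (F' p.2 - F p.2)) := by ring
          have e2 : |l * ((F' p.1 - F p.1) - (F' p.2 - F p.2))| ≤ |l| * (ε + ε) := by
            rw [abs_mul]
            refine mul_le_mul_of_nonneg_left ?_ (abs_nonneg l)
            exact (abs_sub _ _).trans (add_le_add (h3 _) (h3 _))
          have e3 := le_abs_self (l * ((F' p.1 - F p.1) - (F' p.2 - F p.2)))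
          linarith
      _ = ENNReal.ofReal (Real.exp (2 * |l| * ε)) *
          ∫⁻ p : (ι → ℝ) × (ι → ℝ), ENNReal.ofReal (Real.exp (l * (F' p.2 - F' p.1)))
            ∂((gm ι v).prod (gm ι v)) := lintegral_const_mul' _ _ ENNReal.ofReal_ne_top
      _ ≤ ENNReal.ofReal (Real.exp (2 * |l| * ε)) * ENNReal.ofReal (Real.exp B) := by gcongr
      _ = _ := by rw [← ENNReal.ofReal_mul (Real.exp_pos _).le, ← Real.exp_add]
  have hlim : Tendsto (fun ε : ℝ => ENNReal.ofReal (Real.exp (2 * |l| * ε + B))) (𝓝[>] 0)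
      (𝓝 (ENNReal.ofReal (Real.exp B))) := by
    have h1 : Continuous fun ε : ℝ => ENNReal.ofReal (Real.exp (2 * |l| * ε + B)) := by
      apply ENNReal.continuous_ofReal.comp
      fun_prop
    have h2 := h1.tendsto 0
    rw [mul_zero, zero_add] at h2
    exact h2.mono_left nhdsWithin_le_nhds
  refine ge_of_tendsto hlim ?_
  filter_upwards [self_mem_nhdsWithin] with ε hε
  exact key ε hε

theorem integrable_exp {v : ℝ≥0} {F : (ι → ℝ) → ℝ} {K : ℝ} (hK0 : 0 ≤ K)
    (hK : ∀ x y, |F x - F y| ≤ K * N (x - y)) (l : ℝ) :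
    Integrable (fun x => Real.exp (l * F x)) (gm ι v) := by
  have hFc := continuous_of_lip hK
  have h1 := (mp v hK0 hK l).trans_lt ENNReal.ofReal_lt_top
  have hm : Measurable fun p : (ι → ℝ) × (ι → ℝ) => ENNReal.ofReal
      (Real.exp (l * (F p.2 - F p.1))) := by
    apply Continuous.measurable
    apply ENNReal.continuous_ofReal.comp
    fun_prop
  rw [lintegral_prod _ hm.aemeasurable] at h1
  have h2 := ae_lt_top (hm.lintegral_prod_right') h1.ne
  obtain ⟨x, hx⟩ := h2.exists
  have h3 : Integrable (fun y => Real.exp (l * (F y - F x))) (gm ι v) := by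
    refine ⟨(by fun_prop : Continuous fun y => Real.exp (l * (F y - F x))).aestronglyMeasurable, ?_⟩
    rw [hasFiniteIntegral_iff_ofReal (Eventually.of_forall fun y => (Real.exp_pos _).le)]
    exact hx
  have h4 := h3.mul_const (Real.exp (l * F x))
  refine h4.congr (Eventually.of_forall fun y => ?_)
  show Real.exp (l * (F y - F x)) * Real.exp (l * F x) = Real.exp (l * F y)
  rw [← Real.exp_add]
  congr 1
  ring

theorem integrable_lip {v : ℝ≥0} {F : (ι → ℝ) → ℝ} {K : ℝ} (hK0 : 0 ≤ K)
    (hK : ∀ x y, |F x - F y| ≤ K * N (x - y)) : Integrable F (gm ι v) := by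
  have h1 := (integrable_exp (v := v) hK0 hK 1).add (integrable_exp (v := v) hK0 hK (-1))
  refine h1.mono' (continuous_of_lip hK).aestronglyMeasurable (Eventually.of_forall fun x => ?_)
  simp only [Pi.add_apply, one_mul, neg_mul, Real.norm_eq_abs]
  have a1 := Real.add_one_le_exp (F x)
  have a2 := Real.add_one_le_exp (-F x)
  have a3 := Real.exp_pos (F x)
  have a4 := Real.exp_pos (-F x)
  rw [abs_le]
  constructor <;> linarith

/-- sub-Gaussian bound -/
theorem subgaussian (v : ℝ≥0) {F : (ι → ℝ) → ℝ} {K : ℝ} (hK0 : 0 ≤ K)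
    (hK : ∀ x y, |F x - F y| ≤ K * N (x - y)) :
    HasSubgaussianMGF (fun x => F x - ∫ y, F y ∂(gm ι v))
      (Real.toNNReal (Real.pi ^ 2 / 4 * K ^ 2 * v)) (gm ι v) := by
  set m : ℝ := ∫ y, F y ∂(gm ι v) with hm
  have hFi := integrable_lip (v := v) hK0 hK
  have hexp : ∀ l : ℝ, Integrable (fun x => Real.exp (l * F x)) (gm ι v) :=
    integrable_exp hK0 hK
  constructor
  · intro t
    have := (hexp t).mul_const (Real.exp (-(t * m)))
    refine this.congr (Eventually.of_forall fun x => ?_)
    show Real.exp (t * F x) * Real.exp (-(t * m)) = Real.exp (t * (F x - m))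
    rw [← Real.exp_add]
    congr 1
    ring
  · intro t
    rw [Real.coe_toNNReal _ (by positivity)]
    have hJ : Real.exp (-t * m) ≤ ∫ x, Real.exp (-t * F x) ∂(gm ι v) := by
      have h1 := convexOn_exp.map_integral_le (μ := gm ι v) (f := fun x => -t * F x)
        Real.continuous_exp.continuousOn isClosed_univ (Eventually.of_forall fun _ => Set.mem_univ _)
        (hFi.const_mul _) (hexp (-t))
      rw [integral_const_mul] at h1
      exact h1
    have e1 : mgf (fun x => F x - m) (gm ι v) t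
        = (∫ x, Real.exp (t * F x) ∂(gm ι v)) * Real.exp (-t * m) := by
      rw [mgf, ← integral_mul_const]
      refine integral_congr_ae (Eventually.of_forall fun x => ?_)
      show Real.exp (t * (F x - m)) = Real.exp (t * F x) * Real.exp (-t * m)
      rw [← Real.exp_add]
      congr 1
      ring
    have h0 : 0 ≤ ∫ x, Real.exp (t * F x) ∂(gm ι v) :=
      integral_nonneg fun x => (Real.exp_pos _).le
    have e2 : (∫ x, Real.exp (t * F x) ∂(gm ι v)) * (∫ x, Real.exp (-t * F x) ∂(gm ι v))
        = ∫ p : (ι → ℝ) × (ι → ℝ), Real.exp (t * (F p.2 - F p.1)) ∂((gm ι v).prod (gm ι v)) := by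
      rw [mul_comm, ← integral_prod_mul]
      refine integral_congr_ae (Eventually.of_forall fun p => ?_)
      show Real.exp (-t * F p.1) * Real.exp (t * F p.2) = Real.exp (t * (F p.2 - F p.1))
      rw [← Real.exp_add]
      congr 1
      ring
    have h3 : ∫ p : (ι → ℝ) × (ι → ℝ), Real.exp (t * (F p.2 - F p.1)) ∂((gm ι v).prod (gm ι v))
        ≤ Real.exp ((Real.pi / 2 * t) ^ 2 * v * K ^ 2 / 2) := by
      have hFc := continuous_of_lip hK
      have h4 : Integrable (fun p : (ι → ℝ) × (ι → ℝ) => Real.exp (t * (F p.2 - F p.1)))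
          ((gm ι v).prod (gm ι v)) := by
        refine ⟨(by fun_prop : Continuous fun p : (ι → ℝ) × (ι → ℝ) =>
          Real.exp (t * (F p.2 - F p.1))).aestronglyMeasurable, ?_⟩
        rw [hasFiniteIntegral_iff_ofReal (Eventually.of_forall fun y => (Real.exp_pos _).le)]
        exact (mp v hK0 hK t).trans_lt ENNReal.ofReal_lt_top
      have h5 := mp v hK0 hK t
      rw [← ofReal_integral_eq_lintegral_ofReal h4
        (Eventually.of_forall fun y => (Real.exp_pos _).le)] at h5
      exact (ENNReal.ofReal_le_ofReal_iff (Real.exp_pos _).le).1 h5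
    rw [e1]
    calc (∫ x, Real.exp (t * F x) ∂(gm ι v)) * Real.exp (-t * m)
        ≤ (∫ x, Real.exp (t * F x) ∂(gm ι v)) * ∫ x, Real.exp (-t * F x) ∂(gm ι v) :=
          mul_le_mul_of_nonneg_left hJ h0
      _ ≤ Real.exp ((Real.pi / 2 * t) ^ 2 * v * K ^ 2 / 2) := by rw [e2]; exact h3
      _ = _ := by
          congr 1
          ring

theorem one_side (v : ℝ≥0) {F : (ι → ℝ) → ℝ} {K : ℝ} (hK0 : 0 < K)
    (hK : ∀ x y, |F x - F y| ≤ K * N (x - y)) {r : ℝ} (hr : 0 ≤ r) :
    (gm ι v) {x | r ≤ F x - ∫ y, F y ∂(gm ι v)}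
      ≤ ENNReal.ofReal (Real.exp (-(r ^ 2) / (5 * K ^ 2 * v))) := by
  have h1 := (subgaussian v hK0.le hK).measure_ge_le hr
  rw [Real.coe_toNNReal _ (by positivity)] at h1
  rw [← ENNReal.ofReal_toReal (measure_ne_top (gm ι v) {x | r ≤ F x - ∫ y, F y ∂(gm ι v)})]
  apply ENNReal.ofReal_le_ofReal
  refine h1.trans ?_
  rw [Real.exp_le_exp]
  rcases eq_or_lt_of_le (show (0 : ℝ) ≤ v from v.2) with h0 | h0
  · rw [← h0]
    simp
  · rw [neg_div, neg_div, neg_le_neg_iff]
    apply div_le_div_of_nonneg_left (sq_nonneg r) (by positivity)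
    have hpi : Real.pi ^ 2 ≤ 10 := by
      have h2 := Real.pi_lt_d2
      have h3 := Real.pi_pos
      nlinarith
    have h4 : 0 < K ^ 2 * (v : ℝ) := by positivity
    nlinarith

theorem gc : GCStmt := by
  intro ι _ v F K hK0 hK r hr
  have hK' : ∀ x y, |F x - F y| ≤ K * N (x - y) := hK
  have hneg : ∀ x y, |(fun z => -F z) x - (fun z => -F z) y| ≤ K * N (x - y) := by
    intro x y
    have := hK' x y
    rw [abs_sub_comm] at this
    rw [show (fun z => -F z) x - (fun z => -F z) y = F y - F x by ring]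
    exact this
  have h1 := one_side v hK0 hK' hr
  have h2 := one_side v hK0 hneg hr
  rw [integral_neg] at h2
  have hsub : {x | r ≤ |F x - ∫ y, F y ∂(gm ι v)|} ⊆
      {x | r ≤ F x - ∫ y, F y ∂(gm ι v)} ∪ {x | r ≤ -F x - -∫ y, F y ∂(gm ι v)} := by
    intro x hx
    have hx' : r ≤ |F x - ∫ y, F y ∂(gm ι v)| := hx
    rcases le_abs.1 hx' with h | h
    · exact Or.inl h
    · right
      show r ≤ -F x - -∫ y, F y ∂(gm ι v)
      linarith
  refine (measure_mono hsub).trans ((measure_union_le _ _).trans ?_)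
  refine (add_le_add h1 h2).trans (le_of_eq ?_)
  rw [← ENNReal.ofReal_add (Real.exp_pos _).le (Real.exp_pos _).le]
  congr 1
  ring

end Pool.Agent.BED.H55
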