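import Pool.Agent.Helper54_BED.Stmt

/-!
GC: Gaussian concentration for Lipschitz functions (Maurey, Pisier).
-/

set_option autoImplicit false

open MeasureTheory ProbabilityTheory Filter Topology

open scoped ENNReal NNReal BigOperators Convolution

noncomputable section

namespace Pool.Agent.BED.H55

variable {ι : Type} [Fintype ι]

/-- the product of centered Gaussian measures -/
abbrev gm (ι : Type) [Fintype ι] (v : ℝ≥0) : Measure (ι → ℝ) :=
  Measure.pi fun _ : ι => gaussianReal 0 v

/-- Euclidean norm -/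
def N (x : ι → ℝ) : ℝ := Real.sqrt (∑ i, x i ^ 2)

theorem N_nonneg (x : ι → ℝ) : 0 ≤ N x := Real.sqrt_nonneg _

theorem N_sq (x : ι → ℝ) : N x ^ 2 = ∑ i, x i ^ 2 :=
  Real.sq_sqrt (Finset.sum_nonneg fun _ _ => sq_nonneg _)

theorem N_smul (t : ℝ) (x : ι → ℝ) : N (t • x) = |t| * N x := by
  rw [N, N, ← Real.sqrt_sq_eq_abs, ← Real.sqrt_mul (sq_nonneg t), Finset.mul_sum]
  congr 1
  refine Finset.sum_congr rfl fun i _ => ?_
  simp only [Pi.smul_apply, smul_eq_mul]
  ring

instance isGaussian_gm (v : ℝ≥0) : IsGaussian (gm ι v) := by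
  have h1 : ∀ i : ι, HasGaussianLaw (fun x : ι → ℝ => x i) (gm ι v) := by
    intro i
    refine ⟨?_⟩
    rw [show Measure.map (fun x : ι → ℝ => x i) (gm ι v) = gaussianReal 0 v from
      (measurePreserving_eval (fun _ : ι => gaussianReal 0 v) i).map_eq]
    infer_instance
  have h2 : iIndepFun (fun (i : ι) (x : ι → ℝ) => x i) (gm ι v) :=
    iIndepFun_pi (X := fun _ : ι => (id : ℝ → ℝ)) (μ := fun _ : ι => gaussianReal 0 v)
      fun _ => aemeasurable_id
  have h3 := (iIndepFun.hasGaussianLaw h1 h2).isGaussian_map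
  have e : (fun (x : ι → ℝ) (i : ι) => x i) = id := rfl
  rw [e, Measure.map_id] at h3
  exact h3

theorem integrable_coord (v : ℝ≥0) (i : ι) : Integrable (fun x : ι → ℝ => x i) (gm ι v) :=
  IsGaussian.integrable_dual (gm ι v) (ContinuousLinearMap.proj (R := ℝ) (φ := fun _ : ι => ℝ) i)

theorem integral_coord (v : ℝ≥0) (i : ι) : ∫ x : ι → ℝ, x i ∂(gm ι v) = 0 := by
  have h := (measurePreserving_eval (fun _ : ι => gaussianReal 0 v) i)
  have h2 := h.map_eq
  have h3 : ∫ x : ι → ℝ, x i ∂(gm ι v) = ∫ y, y ∂(gaussianReal 0 v) := by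
    rw [← h2, integral_map h.measurable.aemeasurable (f := fun y : ℝ => y)
      aestronglyMeasurable_id]
  rw [h3, integral_id_gaussianReal]

theorem dual_eq [DecidableEq ι] (L : StrongDual ℝ (ι → ℝ)) (x : ι → ℝ) :
    L x = ∑ i, L (Pi.single i 1) * x i := by
  conv_lhs => rw [show x = ∑ i, x i • (Pi.single i (1 : ℝ) : ι → ℝ) from pi_eq_sum_univ' x]
  rw [map_sum]
  refine Finset.sum_congr rfl fun i _ => ?_
  rw [map_smul, smul_eq_mul, mul_comm]

theorem integral_dual (v : ℝ≥0) (L : StrongDual ℝ (ι → ℝ)) : ∫ x, L x ∂(gm ι v) = 0 := by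
  classical
  have e : ∫ x, L x ∂(gm ι v) = ∫ x : ι → ℝ, ∑ i, L (Pi.single i 1) * x i ∂(gm ι v) :=
    integral_congr_ae (Eventually.of_forall fun x => dual_eq L x)
  rw [e, integral_finsetSum _ fun i _ => (integrable_coord v i).const_mul _]
  refine Finset.sum_eq_zero fun i _ => ?_
  rw [integral_const_mul, integral_coord, mul_zero]

theorem map_rotation (v : ℝ≥0) (θ : ℝ) :
    ((gm ι v).prod (gm ι v)).map (ContinuousLinearMap.rotation θ) = (gm ι v).prod (gm ι v) :=
  IsGaussian.map_rotation_eq_self_of_forall_strongDual_eq_zero (integral_dual v) θ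

/-- exponential moments of linear functionals -/
theorem lintegral_exp_dual (v : ℝ≥0) (L : StrongDual ℝ (ι → ℝ)) {K : ℝ}
    (hL : ∀ u, |L u| ≤ K * N u) (c : ℝ) :
    ∫⁻ x, ENNReal.ofReal (Real.exp (c * L x)) ∂(gm ι v)
      ≤ ENNReal.ofReal (Real.exp (c ^ 2 * v * K ^ 2 / 2)) := by
  classical
  set a : ι → ℝ := fun i => L (Pi.single i 1) with ha
  have hexp : ∀ x : ι → ℝ, Real.exp (c * L x) = ∏ i, Real.exp (c * a i * x i) := by
    intro x
    rw [← Real.exp_sum, dual_eq L x, Finset.mul_sum]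
    congr 1
    refine Finset.sum_congr rfl fun i _ => ?_
    simp only [ha]
    ring
  have hint : ∀ i : ι, Integrable (fun t : ℝ => Real.exp (c * a i * t)) (gaussianReal 0 v) :=
    fun i => integrable_exp_mul_gaussianReal _
  have hI : ∫ x, Real.exp (c * L x) ∂(gm ι v) = Real.exp (c ^ 2 * v * (∑ i, a i ^ 2) / 2) := by
    simp only [hexp]
    rw [integral_fintype_prod_eq_prod (f := fun i (t : ℝ) => Real.exp (c * a i * t))]
    have h1 : ∀ i : ι, ∫ t, Real.exp (c * a i * t) ∂(gaussianReal 0 v)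
        = Real.exp (v * (c * a i) ^ 2 / 2) := by
      intro i
      have := mgf_gaussianReal (p := gaussianReal 0 v) (X := id) (μ := 0) (v := v)
        (Measure.map_id) (c * a i)
      rw [zero_mul, zero_add] at this
      exact this
    simp only [h1]
    rw [← Real.exp_sum]
    congr 1
    rw [Finset.mul_sum, Finset.sum_div]
    refine Finset.sum_congr rfl fun i _ => ?_
    ring
  have hInt : Integrable (fun x => Real.exp (c * L x)) (gm ι v) := by
    simp only [hexp]
    exact Integrable.fintype_prod (f := fun i (t : ℝ) => Real.exp (c * a i * t)) hint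
  rw [← ofReal_integral_eq_lintegral_ofReal hInt
    (Eventually.of_forall fun x => (Real.exp_pos _).le), hI]
  apply ENNReal.ofReal_le_ofReal
  rw [Real.exp_le_exp]
  have hsq : ∑ i, a i ^ 2 ≤ K ^ 2 := by
    have h1 := hL a
    have h2 : L a = ∑ i, a i ^ 2 := by
      rw [dual_eq L a]
      refine Finset.sum_congr rfl fun i _ => ?_
      simp only [ha]
      ring
    rw [h2, ← N_sq, abs_of_nonneg (sq_nonneg _)] at h1
    rw [← N_sq]
    have h3 := N_nonneg a
    rcases h3.eq_or_lt with h0 | h0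
    · rw [← h0]
      nlinarith [sq_nonneg K]
    · have h4 : N a ≤ K := by
        have : N a * N a ≤ K * N a := by rw [← sq]; exact h1
        exact le_of_mul_le_mul_right this h0
      nlinarith
  have hv : (0 : ℝ) ≤ v := v.2
  have : 0 ≤ c ^ 2 * (v : ℝ) := by positivity
  nlinarith

/-- the derivative of a Lipschitz function -/
theorem fderiv_bound {F : (ι → ℝ) → ℝ} {K : ℝ} (hK : ∀ x y, |F x - F y| ≤ K * N (x - y))
    {x : ι → ℝ} (hF : DifferentiableAt ℝ F x) (u : ι → ℝ) : |fderiv ℝ F x u| ≤ K * N u := by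
  have h1 : HasDerivAt (fun t : ℝ => F (x + t • u)) (fderiv ℝ F x u) 0 := by
    have := hF.hasFDerivAt.hasLineDerivAt u
    exact this
  have h2 := h1.tendsto_slope_zero
  have h3 : Tendsto (fun t : ℝ => |t⁻¹ • (F (x + (0 + t) • u) - F (x + (0 : ℝ) • u))|) (𝓝[≠] 0)
      (𝓝 |fderiv ℝ F x u|) := h2.abs
  refine le_of_tendsto h3 ?_
  filter_upwards [self_mem_nhdsWithin] with t ht
  have ht0 : t ≠ 0 := ht
  rw [smul_eq_mul, abs_mul, abs_inv, inv_mul_le_iff₀ (abs_pos.2 ht0)]
  have h4 := hK (x + (0 + t) • u) (x + (0 : ℝ) • u)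
  have e : x + (0 + t) • u - (x + (0 : ℝ) • u) = t • u := by
    rw [zero_add, zero_smul, add_zero, add_sub_cancel_left]
  rw [e, N_smul] at h4
  linarith

/-- the Maurey-Pisier inequality, smooth case -/
theorem mp_smooth (v : ℝ≥0) {F : (ι → ℝ) → ℝ} (hF : ContDiff ℝ 1 F) {K : ℝ}
    (hK : ∀ x y, |F x - F y| ≤ K * N (x - y)) (l : ℝ) :
    ∫⁻ p : (ι → ℝ) × (ι → ℝ), ENNReal.ofReal (Real.exp (l * (F p.2 - F p.1)))
      ∂((gm ι v).prod (gm ι v))
      ≤ ENNReal.ofReal (Real.exp ((Real.pi / 2 * l) ^ 2 * v * K ^ 2 / 2)) := by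
  set G : (ι → ℝ) × (ι → ℝ) → ℝ := fun p => fderiv ℝ F p.1 p.2 with hG
  have hGc : Continuous G := hF.continuous_fderiv_apply (by norm_num)
  have hpi : 0 < Real.pi / 2 := by positivity
  have hrc : ∀ p : (ι → ℝ) × (ι → ℝ),
      Continuous fun θ : ℝ => ContinuousLinearMap.rotation θ p := by
    intro p
    simp only [ContinuousLinearMap.rotation_apply]
    fun_prop
  -- pointwise bound
  have hpt : ∀ p : (ι → ℝ) × (ι → ℝ), ENNReal.ofReal (Real.exp (l * (F p.2 - F p.1)))
      ≤ ENNReal.ofReal (2 / Real.pi) * ∫⁻ θ in Set.Ioc 0 (Real.pi / 2),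
        ENNReal.ofReal (Real.exp (Real.pi / 2 * l * G (ContinuousLinearMap.rotation θ p))) := by
    intro p
    have hd : ∀ θ : ℝ, HasDerivAt (fun θ => F (ContinuousLinearMap.rotation θ p).1)
        (G (ContinuousLinearMap.rotation θ p)) θ := by
      intro θ
      have h1 : HasDerivAt (fun θ : ℝ => Real.cos θ • p.1 + Real.sin θ • p.2)
          (-Real.sin θ • p.1 + Real.cos θ • p.2) θ :=
        ((Real.hasDerivAt_cos θ).smul_const p.1).add ((Real.hasDerivAt_sin θ).smul_const p.2)
      have h2 := (hF.differentiable (by norm_num)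
        (Real.cos θ • p.1 + Real.sin θ • p.2)).hasFDerivAt
      exact h2.comp_hasDerivAt θ h1
    have hcont : Continuous fun θ : ℝ => G (ContinuousLinearMap.rotation θ p) :=
      hGc.comp (hrc p)
    have hFTC : ∫ θ in (0 : ℝ)..(Real.pi / 2), G (ContinuousLinearMap.rotation θ p)
        = F p.2 - F p.1 := by
      rw [intervalIntegral.integral_eq_sub_of_hasDerivAt (fun θ _ => hd θ)
        (hcont.intervalIntegrable _ _)]
      simp [ContinuousLinearMap.rotation_apply]
    set μ : Measure ℝ := volume.restrict (Set.Ioc 0 (Real.pi / 2)) with hμ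
    have hμ1 : μ Set.univ = ENNReal.ofReal (Real.pi / 2) := by
      rw [hμ, Measure.restrict_apply_univ, Real.volume_Ioc, sub_zero]
    have hμne : NeZero μ := ⟨by
      intro h0
      rw [h0] at hμ1
      have h1 : ENNReal.ofReal (Real.pi / 2) = 0 := by simpa using hμ1.symm
      rw [ENNReal.ofReal_eq_zero] at h1
      linarith⟩
    have hμf : IsFiniteMeasure μ := ⟨by rw [hμ1]; exact ENNReal.ofReal_lt_top⟩
    set f : ℝ → ℝ := fun θ => Real.pi / 2 * l * G (ContinuousLinearMap.rotation θ p) with hf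
    have hfc : Continuous f := continuous_const.mul hcont
    have hfi : Integrable f μ := (hfc.integrableOn_Icc (a := 0) (b := Real.pi / 2)).mono_set
      Set.Ioc_subset_Icc_self
    have hfe : Integrable (Real.exp ∘ f) μ :=
      ((Real.continuous_exp.comp hfc).integrableOn_Icc (a := 0) (b := Real.pi / 2)).mono_set
        Set.Ioc_subset_Icc_self
    have hJ := convexOn_exp.map_average_le (μ := μ) (f := f) Real.continuous_exp.continuousOn
      isClosed_univ (Eventually.of_forall fun _ => Set.mem_univ _) hfi hfe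
    have hav : ∀ g : ℝ → ℝ, ⨍ θ, g θ ∂μ = 2 / Real.pi * ∫ θ in (0 : ℝ)..(Real.pi / 2), g θ := by
      intro g
      rw [average_eq, intervalIntegral.integral_of_le hpi.le, smul_eq_mul, Measure.real, hμ1,
        ENNReal.toReal_ofReal hpi.le]
      congr 1
      rw [inv_div]
    rw [hav, hav] at hJ
    have e1 : 2 / Real.pi * ∫ θ in (0 : ℝ)..(Real.pi / 2), f θ = l * (F p.2 - F p.1) := by
      rw [hf, intervalIntegral.integral_const_mul, hFTC]
      field_simp
    rw [e1] at hJ
    refine (ENNReal.ofReal_le_ofReal hJ).trans (le_of_eq ?_)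
    rw [ENNReal.ofReal_mul (by positivity), intervalIntegral.integral_of_le hpi.le]
    congr 1
    exact ofReal_integral_eq_lintegral_ofReal hfe (Eventually.of_forall fun θ => (Real.exp_pos _).le)
  have hmeas : Measurable fun q : ((ι → ℝ) × (ι → ℝ)) × ℝ => ENNReal.ofReal
      (Real.exp (Real.pi / 2 * l * G (ContinuousLinearMap.rotation q.2 q.1))) := by
    apply Continuous.measurable
    apply ENNReal.continuous_ofReal.comp
    apply Real.continuous_exp.comp
    apply continuous_const.mul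
    apply hGc.comp
    simp only [ContinuousLinearMap.rotation_apply]
    fun_prop
  have hJ : ∫⁻ p, ENNReal.ofReal (Real.exp (Real.pi / 2 * l * G p)) ∂((gm ι v).prod (gm ι v))
      ≤ ENNReal.ofReal (Real.exp ((Real.pi / 2 * l) ^ 2 * v * K ^ 2 / 2)) := by
    rw [lintegral_prod _ (by
      apply Continuous.aemeasurable
      exact ENNReal.continuous_ofReal.comp (Real.continuous_exp.comp (continuous_const.mul hGc)))]
    calc ∫⁻ x, ∫⁻ y, ENNReal.ofReal (Real.exp (Real.pi / 2 * l * G (x, y))) ∂(gm ι v) ∂(gm ι v)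
        ≤ ∫⁻ _, ENNReal.ofReal (Real.exp ((Real.pi / 2 * l) ^ 2 * v * K ^ 2 / 2)) ∂(gm ι v) := by
          refine lintegral_mono fun x => ?_
          exact lintegral_exp_dual v (fderiv ℝ F x)
            (fderiv_bound hK (hF.differentiable (by norm_num) x)) _
      _ = _ := by rw [lintegral_const, measure_univ, mul_one]
  calc ∫⁻ p : (ι → ℝ) × (ι → ℝ), ENNReal.ofReal (Real.exp (l * (F p.2 - F p.1)))
        ∂((gm ι v).prod (gm ι v))
      ≤ ∫⁻ p, (ENNReal.ofReal (2 / Real.pi) * ∫⁻ θ in Set.Ioc 0 (Real.pi / 2), ENNReal.ofReal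
        (Real.exp (Real.pi / 2 * l * G (ContinuousLinearMap.rotation θ p))))
          ∂((gm ι v).prod (gm ι v)) := lintegral_mono hpt
    _ = ENNReal.ofReal (2 / Real.pi) * ∫⁻ θ in Set.Ioc 0 (Real.pi / 2), ∫⁻ p, ENNReal.ofReal
        (Real.exp (Real.pi / 2 * l * G (ContinuousLinearMap.rotation θ p)))
          ∂((gm ι v).prod (gm ι v)) := by
        rw [lintegral_const_mul' _ _ ENNReal.ofReal_ne_top, lintegral_lintegral_swap]
        exact hmeas.aemeasurable
    _ = ENNReal.ofReal (2 / Real.pi) * ∫⁻ _ in Set.Ioc 0 (Real.pi / 2), ∫⁻ p, ENNReal.ofReal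
        (Real.exp (Real.pi / 2 * l * G p)) ∂((gm ι v).prod (gm ι v)) := by
        have hθ : ∀ θ : ℝ, ∫⁻ p, ENNReal.ofReal
            (Real.exp (Real.pi / 2 * l * G (ContinuousLinearMap.rotation θ p)))
              ∂((gm ι v).prod (gm ι v))
            = ∫⁻ p, ENNReal.ofReal (Real.exp (Real.pi / 2 * l * G p))
              ∂((gm ι v).prod (gm ι v)) := by
          intro θ
          conv_rhs => rw [← map_rotation v θ]
          rw [lintegral_map]
          · exact (ENNReal.continuous_ofReal.comp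
              (Real.continuous_exp.comp (continuous_const.mul hGc))).measurable
          · exact (ContinuousLinearMap.rotation θ).continuous.measurable
        simp only [hθ]
    _ = ∫⁻ p, ENNReal.ofReal (Real.exp (Real.pi / 2 * l * G p)) ∂((gm ι v).prod (gm ι v)) := by
        rw [lintegral_const, Measure.restrict_apply_univ, Real.volume_Ioc, sub_zero,
          mul_comm (∫⁻ p, _ ∂_), ← mul_assoc, ← ENNReal.ofReal_mul (by positivity)]
        rw [show 2 / Real.pi * (Real.pi / 2) = 1 by field_simp, ENNReal.ofReal_one, one_mul]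
    _ ≤ _ := hJ

end Pool.Agent.BED.H55
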